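import Pool.Agent.Q182.PA.EX
import Pool.Agent.Q154.PA.PW
import Pool.Agent.Q182.PA.FE
import Pool.Agent.Q121.PA.CL
import Pool.Agent.Q182.PA.FUB
import Pool.Agent.Q121.PA.RAT
import Pool.Agent.Q121.PA.POLY
import Pool.Agent.Q121.PA.LI
import Pool.Agent.Q121.PA.GAP
import Pool.Agent.Q182.PA.TAY
import Pool.Agent.Q121.PA.FAC
import Pool.Agent.Q121.PA.IND
import Pool.Agent.Q182.PA.M1
import Pool.Agent.Q154.PA.DG
import Pool.Agent.Q154.PA.KP
import Pool.Agent.Q176.PA.CO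
import Pool.Agent.Q153.PA.TR
import Pool.Agent.Q277.PA.LAP
import Pool.Agent.Q154.PA.Z1
import Pool.Agent.Q154.PA.SGN
import Pool.Agent.Q154.PA.ONE
import Pool.Agent.Q154.PA.COR
import Pool.Agent.Q154.PA.NAT
import Pool.Agent.Q154.PA.HOM
import Pool.Agent.Q277.PA.ID
import Pool.Agent.Q277.PA.TILE
import Pool.Agent.Q154.PA.NIV1
import Pool.Agent.Q154.PA.NIV
import Pool.Agent.Q154.PA.PR
import Pool.Agent.Q154.PA.BX
import Pool.Agent.Q154.PA.FIN

/-!
# Self-affine attractors that are polyhedra are parallelepipeds (MP_4cf399_an, Q1)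

In every dimension `d` (in particular for every `d ≥ 3`) every attractor in `ℝ^d` that is a polyhedron, convex or
not, is a parallelepiped.
-/

set_option autoImplicit false

open MeasureTheory

namespace Pool.Agent.Results.MP_4cf399_an.PolyhedralAttractors

/-- `M` is expanding: every (complex) eigenvalue of `M` has absolute value greater than `1`. -/
def Expanding {d : ℕ} (M : Matrix (Fin d) (Fin d) ℝ) : Prop :=
  ∀ (z : ℂ) (w : Fin d → ℂ), w ≠ 0 → (M.map (algebraMap ℝ ℂ)).mulVec w = z • w → 1 < ‖z‖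

/-- The piece `M⁻¹ (G + s)`. -/
def Piece {d : ℕ} (M : Matrix (Fin d) (Fin d) ℝ) (G : Set (Fin d → ℝ)) (s : Fin d → ℝ) : Set (Fin d → ℝ) :=
  (fun x => M⁻¹.mulVec (x + s)) '' G

/-- `G` is an attractor: it is nonempty and compact, and there are an expanding real matrix `M` and a finite set
`S` of vectors such that `G` is the union of the pieces `M⁻¹ (G + s)`, `s ∈ S`, and any two distinct pieces
intersect in a set of Lebesgue measure zero. -/
def IsAttractor {d : ℕ} (G : Set (Fin d → ℝ)) : Prop :=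
  G.Nonempty ∧ IsCompact G ∧ ∃ (M : Matrix (Fin d) (Fin d) ℝ) (S : Finset (Fin d → ℝ)), Expanding M ∧
    G = ⋃ s ∈ S, Piece M G s ∧
      ∀ s ∈ S, ∀ s' ∈ S, s ≠ s' → volume (Piece M G s ∩ Piece M G s') = 0

/-- A `d`-dimensional convex polytope in `ℝ^d`: a bounded intersection of finitely many closed half-spaces
(constraints `c₁ · x ≤ c₂`) with nonempty interior. -/
def IsPolytope {d : ℕ} (P : Set (Fin d → ℝ)) : Prop :=
  Bornology.IsBounded P ∧ (interior P).Nonempty ∧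
    ∃ cs : Finset ((Fin d → ℝ) × ℝ), P = {x | ∀ c ∈ cs, c.1 ⬝ᵥ x ≤ c.2}

/-- A polyhedron: a compact set, not necessarily convex, that equals the closure of its interior, has connected
interior, and is a finite union of `d`-dimensional convex polytopes. -/
def IsPolyhedron {d : ℕ} (G : Set (Fin d → ℝ)) : Prop :=
  IsCompact G ∧ G = closure (interior G) ∧ IsConnected (interior G) ∧
    ∃ F : Finset (Set (Fin d → ℝ)), (∀ P ∈ F, IsPolytope P) ∧ G = ⋃ P ∈ F, P

/-- A parallelepiped: the image of the unit cube under an invertible affine map. -/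
def IsParallelepiped {d : ℕ} (G : Set (Fin d → ℝ)) : Prop :=
  ∃ (A : Matrix (Fin d) (Fin d) ℝ) (b : Fin d → ℝ), IsUnit A.det ∧
    G = (fun x => A.mulVec x + b) '' Set.Icc 0 1

open Pool.Agent.Q15.PA in
theorem thm : S_THM :=
  Pool.Agent.Q154.PA.t_FIN Pool.Agent.Q182.PA.t_EX Pool.Agent.Q154.PA.t_PW Pool.Agent.Q182.PA.t_FE
    Pool.Agent.Q121.PA.t_CL Pool.Agent.Q182.PA.t_FUB Pool.Agent.Q121.PA.t_RAT
    Pool.Agent.Q121.PA.POLY.t_POLY Pool.Agent.Q121.PA.t_LI Pool.Agent.Q121.PA.GAP.t_GAP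
    Pool.Agent.Q182.PA.t_TAY Pool.Agent.Q121.PA.t_FAC Pool.Agent.Q121.PA.IND.t_IND
    Pool.Agent.Q182.PA.t_M1 Pool.Agent.Q154.PA.t_DG Pool.Agent.Q154.PA.t_KP Pool.Agent.Q176.PA.t_CO
    Pool.Agent.Q153.PA.t_TR Pool.Agent.Q277.PA.LAP.lap Pool.Agent.Q154.PA.t_Z1
    Pool.Agent.Q154.PA.t_SGN Pool.Agent.Q154.PA.t_ONE Pool.Agent.Q154.PA.t_COR
    Pool.Agent.Q154.PA.t_NAT Pool.Agent.Q154.PA.t_HOM Pool.Agent.Q277.PA.ID.id
    Pool.Agent.Q277.PA.TILE.tile Pool.Agent.Q154.PA.t_NIV1 Pool.Agent.Q154.PA.t_NIV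
    Pool.Agent.Q154.PA.t_PR Pool.Agent.Q154.PA.t_BX

/-- **Every attractor that is a polyhedron is a parallelepiped**, in every dimension. -/
theorem result : ∀ (d : ℕ) (G : Set (Fin d → ℝ)), IsAttractor G → IsPolyhedron G → IsParallelepiped G := by
  intro d G hA hP
  obtain ⟨h1, h2, M, S, h3, h4, h5⟩ := hA
  exact thm d G ⟨M, S, ⟨h1, h2, h3, h4, h5⟩⟩ hP

end Pool.Agent.Results.MP_4cf399_an.PolyhedralAttractors
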